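import Mathlib
import Pool.Agent.Work.MP_17669a_mp.Val

set_option autoImplicit false

namespace Pool.Agent.Results.MP_17669a_mp.AntisymAllPeriods

/-- The Floquet matrix `L_V(z)` of `Δ + V` (rows and columns indexed by `0, ..., q - 1`):
diagonal entries `V`, entries `1` next to the diagonal, `z⁻¹` in the upper right corner,
`z` in the lower left corner, `0` elsewhere. -/
noncomputable def floquetMatrix (q : ℕ) (V : Fin q → ℂ) (z : ℂ) : Matrix (Fin q) (Fin q) ℂ :=
  Matrix.of fun i j =>
    if i = j then V i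
    else if (i : ℕ) + 1 = j ∨ (j : ℕ) + 1 = i then 1
    else if (i : ℕ) = 0 ∧ (j : ℕ) + 1 = q then z⁻¹
    else if (i : ℕ) + 1 = q ∧ (j : ℕ) = 0 then z
    else 0

/-- `V` is Floquet isospectral to the zero potential: for every `z` on the unit circle the
characteristic polynomials of `L_V(z)` and `L_0(z)` coincide. -/
def FloquetIsospectralToZero (q : ℕ) (V : Fin q → ℂ) : Prop :=
  ∀ z : ℂ, ‖z‖ = 1 → (floquetMatrix q V z).charpoly = (floquetMatrix q 0 z).charpoly

/-- For every period `q > 3` (in particular for all `q > 3` not divisible by `4`) there is a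
nonzero antisymmetric complex potential which is Floquet isospectral to zero. -/
theorem result : ∀ q : ℕ, 3 < q → ∃ V : Fin q → ℂ, V ≠ 0 ∧
    (∀ j : Fin q, V j = - V (Fin.rev j)) ∧ FloquetIsospectralToZero q V := by
  intro q hq
  obtain ⟨V, h0, hV, hD⟩ := Pool.Agent.Work.MP_17669a_mp.exists_antisymmetric (q := q) (by omega)
  refine ⟨V, h0, hV, fun z hz => ?_⟩
  have hz0 : z ≠ 0 := by
    rintro rfl
    simp at hz
  have e : ∀ W : Fin q → ℂ, floquetMatrix q W z = Pool.Agent.Work.MP_17669a_mp.flo q W z z⁻¹ :=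
    fun _ => rfl
  rw [e, e, Pool.Agent.Work.MP_17669a_mp.flo_charpoly q (by omega) V z z⁻¹ (mul_inv_cancel₀ hz0),
    Pool.Agent.Work.MP_17669a_mp.flo_charpoly q (by omega) 0 z z⁻¹ (mul_inv_cancel₀ hz0), hD]

end Pool.Agent.Results.MP_17669a_mp.AntisymAllPeriods
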